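import Pool.Agent.helper55.NM.Spec

set_option autoImplicit false

namespace Pool.Agent.helper45.NM

open Pool.Agent.NM Finset Nat

/-- the image of the first `j` indices -/
def DCT_P {q : ℕ} (j : ℕ) (τ : Equiv.Perm (Fin q)) : Finset (Fin q) :=
  univ.filter (fun x => (τ.symm x).val < j)

lemma DCT_Yp {q : ℕ} (y : Fin q → ℝ) (j : ℕ) (τ : Equiv.Perm (Fin q)) :
    Yp y τ j = ∑ x ∈ DCT_P j τ, y x := by
  unfold Yp DCT_P
  exact Finset.sum_equiv τ (by simp) (by simp)

lemma DCT_card {q : ℕ} (j : ℕ) (hj : j ≤ q) (τ : Equiv.Perm (Fin q)) :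
    (DCT_P j τ).card = j := by
  have h1 : (univ.filter (fun i : Fin q => i.val < j)).card = (DCT_P j τ).card := by
    apply Finset.card_equiv τ
    intro i
    simp [DCT_P]
  rw [← h1, Fin.card_filter_val_lt]
  exact min_eq_right hj

/-- orders as numberings -/
def DCT_e (q : ℕ) : Equiv.Perm (Fin q) ≃ Numbering (Fin q) where
  toFun τ := τ.symm.trans (finCongr (Fintype.card_fin q).symm)
  invFun g := (g.trans (finCongr (Fintype.card_fin q))).symm
  left_inv τ := by
    ext x
    simp
  right_inv g := by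
    ext x
    simp

lemma DCT_fib {q : ℕ} (J : Finset (Fin q)) :
    (univ.filter (fun τ : Equiv.Perm (Fin q) => DCT_P J.card τ = J)).card =
      J.card ! * (q - J.card)! := by
  have h1 := Numbering.card_prefixed J
  rw [Fintype.card_fin] at h1
  rw [← h1]
  apply Finset.card_equiv (DCT_e q)
  intro τ
  rw [Finset.mem_filter, Numbering.mem_prefixed]
  unfold Numbering.IsPrefix DCT_P
  constructor
  · rintro ⟨-, h⟩ x
    have h2 := Finset.ext_iff.1 h x
    simp only [Finset.mem_filter, Finset.mem_univ, true_and] at h2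
    rw [← h2]
    rfl
  · intro h
    refine ⟨Finset.mem_univ _, ?_⟩
    ext x
    simp only [Finset.mem_filter, Finset.mem_univ, true_and]
    exact (h x).symm

open Classical in
theorem DCT : DCT_stmt := by
  intro q y c j hj
  have hmaps : ∀ τ ∈ (univ.filter (fun τ : Equiv.Perm (Fin q) => Yp y τ j = c)),
      DCT_P j τ ∈ (univ.filter (fun J : Finset (Fin q) => J.card = j ∧ ∑ i ∈ J, y i = c)) := by
    intro τ hτ
    rw [Finset.mem_filter] at hτ ⊢
    exact ⟨Finset.mem_univ _, DCT_card j hj τ, by rw [← DCT_Yp]; exact hτ.2⟩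
  rw [Finset.card_eq_sum_card_fiberwise hmaps]
  have hsum : ∀ J ∈ (univ.filter (fun J : Finset (Fin q) => J.card = j ∧ ∑ i ∈ J, y i = c)),
      ((univ.filter (fun τ : Equiv.Perm (Fin q) => Yp y τ j = c)).filter
        (fun τ => DCT_P j τ = J)).card = j ! * (q - j)! := by
    intro J hJ
    rw [Finset.mem_filter] at hJ
    obtain ⟨-, hJ1, hJ2⟩ := hJ
    have h2 := DCT_fib J
    rw [hJ1] at h2
    rw [← h2]
    apply congrArg
    ext τ
    simp only [Finset.mem_filter, Finset.mem_univ, true_and]
    constructor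
    · exact fun h => h.2
    · intro h
      refine ⟨?_, h⟩
      rw [DCT_Yp, h]
      exact hJ2
  rw [Finset.sum_congr rfl hsum, Finset.sum_const, smul_eq_mul,
    ← Nat.choose_mul_factorial_mul_factorial hj]
  ring

end Pool.Agent.helper45.NM
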